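import Mathlib

/-!
STP: the arithmetic part. A combination of powers of algebraic integers with coefficients in the
ring of integers of a number field satisfies `s (q) = s (1) ^ q` modulo a prime of norm `q`.
-/

namespace Pool.Agent.STP

theorem arith (K : IntermediateField ℚ ℝ) [FiniteDimensional ℚ K]
    (M : Ideal (integralClosure ℤ K)) (hM : M.IsMaximal) (Θ : Finset ℂ)
    (hΘ : ∀ θ ∈ Θ, IsIntegral ℤ θ) (c : ℂ → integralClosure ℤ K) (D : integralClosure ℤ K)
    (hD : D ∉ M) (N : ℕ)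
    (h1 : 1 ≤ N → ∑ θ ∈ Θ, (((c θ : K) : ℝ) : ℂ) * θ = (((D : K) : ℝ) : ℂ))
    (h2 : ∀ j, 2 ≤ j → j ≤ N →
      ∑ θ ∈ Θ, (((c θ : K) : ℝ) : ℂ) * θ ^ j = 2 * (((D : K) : ℝ) : ℂ)) :
    N < Nat.card (integralClosure ℤ K ⧸ M) := by
  classical
  have hNF : NumberField K := ⟨⟩
  have hfin1 : Module.Finite ℤ (integralClosure ℤ K) :=
    inferInstanceAs (Module.Finite ℤ (NumberField.RingOfIntegers K))
  have hnf : ¬ IsField (integralClosure ℤ K) := NumberField.RingOfIntegers.not_isField K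
  have hbot : M ≠ ⊥ := Ring.ne_bot_of_isMaximal_of_not_isField hM hnf
  have hfin : Finite (integralClosure ℤ K ⧸ M) := Ring.HasFiniteQuotients.finiteQuotient hbot
  let _ : Field (integralClosure ℤ K ⧸ M) := Ideal.Quotient.field M
  let _ : Fintype (integralClosure ℤ K ⧸ M) := Fintype.ofFinite _
  obtain ⟨q, hq⟩ : ∃ q, q = Fintype.card (integralClosure ℤ K ⧸ M) := ⟨_, rfl⟩
  rw [Nat.card_eq_fintype_card, ← hq]
  by_contra hlt
  have hqN : q ≤ N := not_lt.1 hlt
  obtain ⟨p, hp⟩ := CharP.exists (integralClosure ℤ K ⧸ M)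
  obtain ⟨n, hpp, hn⟩ := FiniteField.card (integralClosure ℤ K ⧸ M) p
  have hq2 : 2 ≤ q := by
    rw [hq]
    exact Fintype.one_lt_card
  -- the ring of all algebraic integers
  have hphi : ∀ x : integralClosure ℤ K, IsIntegral ℤ (((x : K) : ℝ) : ℂ) := by
    intro x
    have hx : IsIntegral ℤ (x : K) := x.2
    have h3 := hx.map (Int.castRingHom ℝ |>.toIntAlgHom |> fun _ => (algebraMap K ℝ).toIntAlgHom)
    have h4 := h3.map (Complex.ofRealHom.toIntAlgHom)
    exact h4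
  let φ : integralClosure ℤ K →+* integralClosure ℤ ℂ :=
    { toFun := fun x => ⟨(((x : K) : ℝ) : ℂ), hphi x⟩
      map_one' := by ext; simp
      map_mul' := by intro x y; ext; simp
      map_zero' := by ext; simp
      map_add' := by intro x y; ext; simp }
  let _ : Algebra (integralClosure ℤ K) (integralClosure ℤ ℂ) := φ.toAlgebra
  have hint : Algebra.IsIntegral (integralClosure ℤ K) (integralClosure ℤ ℂ) := by
    have : Algebra.IsIntegral ℤ (integralClosure ℤ ℂ) := inferInstance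
    exact Algebra.IsIntegral.tower_top ℤ
  have hinj : Function.Injective φ := by
    intro x y hxy
    have h3 : (((x : K) : ℝ) : ℂ) = (((y : K) : ℝ) : ℂ) := congrArg Subtype.val hxy
    exact Subtype.ext (Subtype.ext (Complex.ofReal_injective h3))
  obtain ⟨P, hP, hPM⟩ := Ideal.exists_ideal_over_maximal_of_isIntegral
    (S := integralClosure ℤ ℂ) M (by
      rw [show algebraMap (integralClosure ℤ K) (integralClosure ℤ ℂ) = φ from rfl,
        (RingHom.injective_iff_ker_eq_bot φ).1 hinj]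
      exact bot_le)
  have hPM' : P.comap φ = M := hPM
  let _ : Field (integralClosure ℤ ℂ ⧸ P) := Ideal.Quotient.field P
  let ψ : integralClosure ℤ K ⧸ M →+* integralClosure ℤ ℂ ⧸ P :=
    Ideal.quotientMap P φ (le_of_eq hPM'.symm)
  have hψ : ∀ x, ψ (Ideal.Quotient.mk M x) = Ideal.Quotient.mk P (φ x) := fun x =>
    Ideal.quotientMap_mk
  have hcp : CharP (integralClosure ℤ ℂ ⧸ P) p :=
    charP_of_injective_ringHom ψ.injective p
  have hprime : Fact p.Prime := ⟨hpp⟩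
  have hexp : ExpChar (integralClosure ℤ ℂ ⧸ P) p := ExpChar.prime hpp
  let τ : ℂ → integralClosure ℤ ℂ := fun θ => if h : IsIntegral ℤ θ then ⟨θ, h⟩ else 0
  have hτ : ∀ θ ∈ Θ, ((τ θ : integralClosure ℤ ℂ) : ℂ) = θ := by
    intro θ hθ
    simp only [τ, dif_pos (hΘ θ hθ)]
  have hr1 : ∑ θ ∈ Θ, φ (c θ) * τ θ = φ D := by
    apply Subtype.ext
    have h3 := h1 (by omega)
    rw [AddSubmonoidClass.coe_finsetSum]
    calc ∑ θ ∈ Θ, ((φ (c θ) * τ θ : integralClosure ℤ ℂ) : ℂ)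
        = ∑ θ ∈ Θ, (((c θ : K) : ℝ) : ℂ) * θ := by
          refine Finset.sum_congr rfl fun θ hθ => ?_
          rw [MulMemClass.coe_mul, hτ θ hθ]
          rfl
      _ = _ := h3
  have hr2 : ∑ θ ∈ Θ, φ (c θ) * τ θ ^ q = 2 * φ D := by
    apply Subtype.ext
    have h3 := h2 q hq2 hqN
    rw [AddSubmonoidClass.coe_finsetSum]
    calc ∑ θ ∈ Θ, ((φ (c θ) * τ θ ^ q : integralClosure ℤ ℂ) : ℂ)
        = ∑ θ ∈ Θ, (((c θ : K) : ℝ) : ℂ) * θ ^ q := by
          refine Finset.sum_congr rfl fun θ hθ => ?_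
          rw [MulMemClass.coe_mul, SubmonoidClass.coe_pow, hτ θ hθ]
          rfl
      _ = _ := h3
  have hpow : ∀ x : integralClosure ℤ K, (Ideal.Quotient.mk P (φ x)) ^ q =
      Ideal.Quotient.mk P (φ x) := by
    intro x
    rw [← hψ, ← map_pow, hq, FiniteField.pow_card]
  have h3 : Ideal.Quotient.mk P (2 * φ D) = Ideal.Quotient.mk P (φ D) := by
    rw [← hr2, map_sum]
    calc ∑ θ ∈ Θ, Ideal.Quotient.mk P (φ (c θ) * τ θ ^ q)
        = ∑ θ ∈ Θ, (Ideal.Quotient.mk P (φ (c θ) * τ θ)) ^ q := by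
          refine Finset.sum_congr rfl fun θ _ => ?_
          rw [map_mul, map_mul, mul_pow, hpow, map_pow]
      _ = (∑ θ ∈ Θ, Ideal.Quotient.mk P (φ (c θ) * τ θ)) ^ q := by
          rw [hq, hn, sum_pow_char_pow]
      _ = Ideal.Quotient.mk P (φ D) := by
          rw [← map_sum, hr1, hpow]
  have h4 : Ideal.Quotient.mk P (φ D) = 0 := by
    rw [two_mul, map_add] at h3
    exact left_eq_add.1 h3.symm
  have h5 : φ D ∈ P := Ideal.Quotient.eq_zero_iff_mem.1 h4
  exact hD (by rw [← hPM']; exact h5)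

end Pool.Agent.STP
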