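import Pool.Agent.ST5.Def

/-!
# The global dimension of a subfactor planar algebra
-/

namespace Pool.Agent.ST5

/-- The ring of the algebraic integers that lie in the field `ℚ(x)`, as a subring of `ℝ`. -/
noncomputable def integersOf (x : ℝ) : Subring ℝ :=
  (integralClosure ℤ ℝ).toSubring ⊓ (IntermediateField.adjoin ℚ {x}).toSubring

namespace SubfactorPlanarAlgebra

variable {T : Type*} [Ring T] [StarRing T] [Algebra ℂ T] [StarModule ℂ T]

/-- `n` nested cups. -/
def nestedCups (S : SubfactorPlanarAlgebra T) : ℕ → T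
  | 0 => 1
  | n + 1 => S.ρ^[n] S.r * nestedCups S n

/-- A simple even object: a minimal projection of `z (H (2 n) (2 n))` (leftmost region unshaded). -/
structure IsSimpleEven (S : SubfactorPlanarAlgebra T) (n : ℕ) (p : T) : Prop where
  mem : p ∈ S.H (2 * n) (2 * n)
  star_eq : star p = p
  idem : p * p = p
  z_mul : S.z * p = p
  ne_zero : p ≠ 0
  minimal : ∀ x ∈ S.H (2 * n) (2 * n), ∃ c : ℂ, p * x * p = c • p

/-- Isomorphism of the objects `p` (on `2 m` strings) and `q` (on `2 n` strings). -/
def Iso (S : SubfactorPlanarAlgebra T) (m : ℕ) (p : T) (n : ℕ) (q : T) : Prop :=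
  ∃ v ∈ S.H (2 * m) (2 * n), star v * v = p ∧ v * star v = q

/-- `D` is the global dimension: there are finitely many simple even objects `p j` (`j ∈ J`),
pairwise not isomorphic, such that every simple even object is isomorphic to one of them, and `D`
is the sum of the squares of their dimensions `d j` (the value of the closed diagram obtained from
`p j` by joining its top with its bottom). -/
def IsGlobalDimension (S : SubfactorPlanarAlgebra T) (D : ℝ) : Prop :=
  ∃ (J : Type) (_ : Fintype J) (a : J → ℕ) (p : J → T) (d : J → ℝ),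
    (∀ j, S.IsSimpleEven (a j) (p j)) ∧
    (∀ i j, i ≠ j → ¬ S.Iso (a i) (p i) (a j) (p j)) ∧
    (∀ n q, S.IsSimpleEven n q → ∃ j, S.Iso (a j) (p j) n q) ∧
    (∀ j, star (S.nestedCups (2 * a j)) * p j * S.nestedCups (2 * a j) = (d j : ℂ) • S.z) ∧
    D = ∑ j, d j ^ 2

end SubfactorPlanarAlgebra

end Pool.Agent.ST5
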