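import Pool.Agent.ST5.Q.X3

/-!
STP: the dimensions of the simple even objects are algebraic integers.
-/

namespace Pool.Agent.STP

open Pool.Agent.ST5

variable {T : Type*} [Ring T] [StarRing T] [Algebra ℂ T] [StarModule ℂ T]
  {S : SubfactorPlanarAlgebra T}

open SubfactorPlanarAlgebra

theorem Tr_tensor {a w : ℕ} (ha : a % 2 = 0) {p q : T} (hp : S.IsProj a p) (hq : S.IsProj w q) :
    S.Tr (a + w) (p * S.rp a q) = S.Tr a p * S.Tr w q := by
  have h1 : S.R (a + w) = S.rp a (S.R w) * S.R a := S.R_add a w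
  have hz : S.rp a S.z = S.z := S.rp_z_even ha
  have h2 : star (S.R (a + w)) = star (S.R a) * S.rp a (star (S.R w)) := by
    rw [h1, star_mul, map_star]
  have h3 : p * S.rp a (star (S.R w)) = S.rp a (star (S.R w)) * p :=
    inter hp.mem (star_mem' (S.R_mem w))
  have h4 : star (S.R w) * q * S.R w = S.Tr w q • S.z := Tr_elt hq.mem hq.z_mul
  have h5 : star (S.R a) * p * S.R a = S.Tr a p • S.z := Tr_elt hp.mem hp.z_mul
  have hpz : p * S.z = p := by rw [← z_comm hp.mem, hp.z_mul]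
  have h6 : star (S.R (a + w)) * (p * S.rp a q) * S.R (a + w) =
      (S.Tr a p * S.Tr w q) • S.z := by
    calc star (S.R (a + w)) * (p * S.rp a q) * S.R (a + w)
        = star (S.R a) * (S.rp a (star (S.R w)) * p) * S.rp a q * (S.rp a (S.R w) * S.R a) := by
          rw [h2, h1]; simp only [mul_assoc]
      _ = star (S.R a) * p * S.rp a (star (S.R w) * q * S.R w) * S.R a := by
          rw [← h3, map_mul, map_mul]; simp only [mul_assoc]
      _ = S.Tr w q • (star (S.R a) * (p * S.z) * S.R a) := by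
          rw [h4, map_smul, hz]
          simp only [mul_smul_comm, smul_mul_assoc, mul_assoc]
      _ = (S.Tr a p * S.Tr w q) • S.z := by
          rw [hpz, h5, smul_smul, mul_comm]
  unfold Tr at h6 ⊢
  apply zc_eq
  rw [h6, mul_smul_comm, S.z_mul]

theorem Tr_fam (Q : S.SimpleSystem) {n : ℕ} {P : T} {k : Q.J → ℕ} {v : ∀ j, Fin (k j) → T}
    (hv : S.CFam Q.a Q.p n P (fun j => Fin (k j)) v) :
    S.Tr n P = ∑ j, ((k j : ℕ) : ℂ) * (Q.d j : ℂ) := by
  have hmem : ∀ j (s : Fin (k j)), v j s * star (v j s) ∈ S.H n n := fun j s =>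
    mul_to (hv.mem j s).1 (star_mem' (hv.mem j s).1) rfl
  have h3 : S.Tr n P = ∑ j, ∑ s, S.Tr n (v j s * star (v j s)) := by
    have h4 : S.Tr n (∑ j, ∑ s, v j s * star (v j s)) =
        ∑ j, ∑ s, S.Tr n (v j s * star (v j s)) := by
      rw [Tr_sum _ _ _ (fun j _ => Submodule.sum_mem _ fun s _ => hmem j s)]
      exact Finset.sum_congr rfl fun j _ => Tr_sum _ _ _ (fun s _ => hmem j s)
    rw [hv.complete] at h4
    exact h4
  have h5 : ∀ j (s : Fin (k j)), S.Tr n (v j s * star (v j s)) = (Q.d j : ℂ) := by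
    intro j s
    rw [Tr_comm (hv.mem j s).1 (star_mem' (hv.mem j s).1), hv.orth, if_pos rfl, Q.Tr_p]
  rw [h3]
  refine Finset.sum_congr rfl fun j _ => ?_
  rw [Finset.sum_congr rfl fun s _ => h5 j s, Finset.sum_const, Finset.card_univ,
    Fintype.card_fin, nsmul_eq_mul]

theorem d_integral (Q : S.SimpleSystem) (W : Q.J) (hW : Q.a W % 2 = 0) :
    IsIntegral ℤ (Q.d W) := by
  classical
  obtain ⟨E, hE⟩ : ∃ E, E = Finset.univ.filter (fun i => Q.a i % 2 = 0) := ⟨_, rfl⟩
  have hmE : ∀ i, i ∈ E ↔ Q.a i % 2 = 0 := by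
    intro i
    rw [hE, Finset.mem_filter]
    exact ⟨fun h => h.2, fun h => ⟨Finset.mem_univ i, h⟩⟩
  obtain ⟨L, hL⟩ : ∃ L : Submodule ℤ ℝ, L = Submodule.span ℤ (E.image Q.d : Set ℝ) := ⟨_, rfl⟩
  have hdL : ∀ i, Q.a i % 2 = 0 → Q.d i ∈ L := by
    intro i hi
    rw [hL]
    apply Submodule.subset_span
    rw [Finset.coe_image]
    exact ⟨i, (hmE i).2 hi, rfl⟩
  refine isIntegral_of_smul_mem_submodule (M := ℝ) (N := L) ?_ ?_ (Q.d W) ?_
  · intro h
    have h1 := hdL Q.o (by rw [Q.a_o])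
    rw [h, Submodule.mem_bot, Q.d_o] at h1
    exact one_ne_zero h1
  · rw [hL]
    exact ⟨E.image Q.d, rfl⟩
  · intro x hx
    rw [hL] at hx
    induction hx using Submodule.span_induction with
    | mem x hx =>
      rw [Finset.coe_image] at hx
      obtain ⟨i, hi, rfl⟩ := hx
      have hi' : Q.a i % 2 = 0 := (hmE i).1 hi
      have hP := IsProj.tensor (S := S) (Q.simple i).toIsProj (Q.simple W).toIsProj
      obtain ⟨k, v, hv⟩ := Q.exists_fam _ _ hP
      have h1 := Tr_tensor hi' (Q.simple i).toIsProj (Q.simple W).toIsProj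
      rw [Tr_fam Q hv, Q.Tr_p, Q.Tr_p] at h1
      have h2 : Q.d W • Q.d i = ∑ j, ((k j : ℕ) : ℝ) * Q.d j := by
        rw [smul_eq_mul, mul_comm]
        exact_mod_cast h1.symm
      rw [h2]
      refine Submodule.sum_mem _ fun j _ => ?_
      rcases Nat.eq_zero_or_pos (k j) with h0 | h0
      · rw [h0, Nat.cast_zero, zero_mul]
        exact Submodule.zero_mem _
      · have hj : Q.a j % 2 = 0 := by
          by_contra hne
          have h4 : v j ⟨0, h0⟩ = 0 := by
            apply S.odd_zero _ _ _ _ (hv.mem j ⟨0, h0⟩).1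
            rw [Nat.odd_iff]
            omega
          have h5 := hv.orth j ⟨0, h0⟩ ⟨0, h0⟩
          rw [h4, if_pos rfl, mul_zero] at h5
          exact (Q.simple j).ne_zero h5.symm
        rw [← nsmul_eq_mul]
        exact Submodule.smul_of_tower_mem _ _ (hdL j hj)
    | zero => rw [smul_zero]; exact Submodule.zero_mem _
    | add x y _ _ hx hy => rw [smul_add]; exact Submodule.add_mem _ hx hy
    | smul c x _ hx =>
      rw [smul_comm]
      exact Submodule.smul_mem _ _ hx

end Pool.Agent.STP
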