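import Pool.Agent.STP.Glob

/-!
STP: the global dimension exists.
-/

namespace Pool.Agent.STP

open Pool.Agent.ST5

variable {T : Type*} [Ring T] [StarRing T] [Algebra ℂ T] [StarModule ℂ T]
  {S : SubfactorPlanarAlgebra T}

open SubfactorPlanarAlgebra

theorem mul_source {m n : ℕ} {p w : T} (hp : p ∈ S.H m m) (hs : star p = p) (hi : p * p = p)
    (hw : w ∈ S.H m n) (hw1 : star w * w = p) : w * p = w := by
  have hu : w - w * p ∈ S.H m n :=
    Submodule.sub_mem _ hw (S.mul_mem _ _ _ _ _ hw hp)
  have hu0 : star (w - w * p) * (w - w * p) = 0 := by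
    have h3 : star (w - w * p) = star w - p * star w := by
      rw [star_sub, star_mul, hs]
    calc star (w - w * p) * (w - w * p)
        = (star w * w) - (star w * w) * p - p * (star w * w) + p * (star w * w) * p := by
          rw [h3]
          noncomm_ring
      _ = 0 := by
          rw [hw1, hi, hi]
          abel
  exact (sub_eq_zero.1 (faithful hu hu0)).symm

theorem globalDimension_exists (Q : S.SimpleSystem) :
    S.IsGlobalDimension (∑ k ∈ Finset.univ.filter (fun k => Q.a k % 2 = 0), (Q.d k) ^ 2) := by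
  classical
  have ha : ∀ j : {k : Q.J // Q.a k % 2 = 0}, 2 * (Q.a j.1 / 2) = Q.a j.1 := by
    intro j
    have := j.2
    omega
  refine ⟨{k : Q.J // Q.a k % 2 = 0}, inferInstance, fun j => Q.a j.1 / 2, fun j => Q.p j.1,
    fun j => Q.d j.1, ?_, ?_, ?_, ?_, ?_⟩
  · intro j
    apply simpleEven'
    rw [ha j]
    exact Q.simple j.1
  · rintro i j hij ⟨v, hv, hv1, hv2⟩
    rw [ha i, ha j] at hv
    change star v * v = Q.p i.1 at hv1
    change v * star v = Q.p j.1 at hv2
    have h1 : v * Q.p i.1 = v :=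
      mul_source (Q.simple i.1).mem (Q.simple i.1).star_eq (Q.simple i.1).idem hv hv1
    have h2 : Q.p j.1 * v = v := by
      rw [← hv2, mul_assoc, hv1, h1]
    have h3 := Q.ortho i.1 j.1 (fun h => hij (Subtype.ext h)) v ⟨hv, h2, h1⟩
    rw [h3, mul_zero] at hv1
    exact (Q.simple i.1).ne_zero hv1.symm
  · intro n q hq
    obtain ⟨i, v, hv, hv1, hv2⟩ := Q.exists_iso (simpleEven hq)
    have hi : Q.a i % 2 = 0 := by
      by_contra hne
      have h1 : v = 0 := by
        apply S.odd_zero _ _ _ _ hv.1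
        rw [Nat.odd_iff]
        omega
      rw [h1, mul_zero] at hv1
      exact (Q.simple i).ne_zero hv1.symm
    refine ⟨⟨i, hi⟩, v, ?_, hv1, hv2⟩
    rw [ha ⟨i, hi⟩]
    exact hv.1
  · intro j
    rw [ha j, nestedCups_eq, Tr_elt (Q.simple j.1).mem (Q.simple j.1).z_mul, Q.Tr_p]
  · rw [← Finset.sum_subtype_eq_sum_filter, Finset.subtype_univ]

theorem globalDimension_iff (Q : S.SimpleSystem) (D : ℝ) : S.IsGlobalDimension D ↔
    D = ∑ k ∈ Finset.univ.filter (fun k => Q.a k % 2 = 0), (Q.d k) ^ 2 := by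
  constructor
  · intro h
    exact globalDimension_eq Q h
  · rintro rfl
    exact globalDimension_exists Q

end Pool.Agent.STP
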