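import Pool.Agent.STP.Dim

/-!
STP: the spectral measure of the planar algebra with its multiplicities.
-/

namespace Pool.Agent.STP

open Pool.Agent.ST5

variable {T : Type*} [Ring T] [StarRing T] [Algebra ℂ T] [StarModule ℂ T]
  {S : SubfactorPlanarAlgebra T}

open SubfactorPlanarAlgebra

theorem exists_mult (Q : S.SimpleSystem) : ∃ (Θ : Finset ℂ) (n : Q.J → ℂ → ℕ),
    (∀ θ ∈ Θ, IsIntegral ℤ θ) ∧ ∀ j : ℕ,
      ∑ θ ∈ Θ, ((∑ W ∈ Finset.univ.filter (fun W => Q.a W % 2 = 0), Q.d W * (n W θ : ℝ) : ℝ) : ℂ) *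
        θ ^ j =
      ((∑ k ∈ Finset.univ.filter (fun k => Q.a k % 2 = 0), (Q.d k) ^ 2 : ℝ) : ℂ) *
        LinearMap.trace ℂ (S.KK (2 * j)) (S.rotK 1 (2 * j)) := by
  classical
  obtain ⟨E, hE⟩ : ∃ E, E = Finset.univ.filter (fun W => Q.a W % 2 = 0) := ⟨_, rfl⟩
  obtain ⟨D, hDdef⟩ : ∃ D, D = ∑ k ∈ E, (Q.d k) ^ 2 := ⟨_, rfl⟩
  have hoE : Q.o ∈ E := by
    rw [hE, Finset.mem_filter]
    exact ⟨Finset.mem_univ _, by rw [Q.a_o]⟩
  have hD : 0 < D := by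
    rw [hDdef]
    exact Finset.sum_pos (fun k _ => pow_pos (Q.d_pos k) 2) ⟨Q.o, hoE⟩
  have hex : ∀ W : Q.J, ∃ (s : Finset ℂ) (n : ℂ → ℕ), (∀ c ∈ s, 0 < n c ∧ ‖c‖ = 1) ∧
      ∀ m : ℕ, LinearMap.trace ℂ (∀ k, Q.EE 1 W k) (Q.PP 1 W ^ m) = ∑ c ∈ s, (n c : ℂ) * c ^ m :=
    fun W => trace_pow_eq_sum_unit (Q.PP 1 W) (fun μ f hf h0 => Q.PP_eigen le_rfl W μ f hf h0)
  choose s n hsn using hex
  have hTF : ∀ j : ℕ, ∑ W ∈ E, (Q.d W : ℂ) * ∑ c ∈ s W, (n W c : ℂ) * c ^ j =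
      (D : ℂ) * LinearMap.trace ℂ (S.KK (2 * j)) (S.rotK 1 (2 * j)) := by
    intro j
    have h1 := Q.trace_formula2 1 j
    rw [← hE, ← hDdef] at h1
    rw [← h1]
    exact Finset.sum_congr rfl fun W _ => by rw [(hsn W).2 j]
  obtain ⟨m, hm⟩ : ∃ m : Q.J → ℂ → ℕ, m = fun W θ => if θ ∈ s W then n W θ else 0 := ⟨_, rfl⟩
  have hsum : ∀ j : ℕ, ∑ θ ∈ E.biUnion s, ((∑ W ∈ E, Q.d W * (m W θ : ℝ) : ℝ) : ℂ) * θ ^ j =
      (D : ℂ) * LinearMap.trace ℂ (S.KK (2 * j)) (S.rotK 1 (2 * j)) := by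
    intro j
    rw [← hTF j]
    calc ∑ θ ∈ E.biUnion s, ((∑ W ∈ E, Q.d W * (m W θ : ℝ) : ℝ) : ℂ) * θ ^ j
        = ∑ θ ∈ E.biUnion s, ∑ W ∈ E, (Q.d W : ℂ) * ((m W θ : ℂ) * θ ^ j) := by
          refine Finset.sum_congr rfl fun θ _ => ?_
          push_cast
          rw [Finset.sum_mul]
          exact Finset.sum_congr rfl fun W _ => by ring
      _ = ∑ W ∈ E, ∑ θ ∈ E.biUnion s, (Q.d W : ℂ) * ((m W θ : ℂ) * θ ^ j) := Finset.sum_comm
      _ = ∑ W ∈ E, (Q.d W : ℂ) * ∑ c ∈ s W, (n W c : ℂ) * c ^ j := by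
          refine Finset.sum_congr rfl fun W hW => ?_
          rw [Finset.mul_sum]
          symm
          refine Finset.sum_subset_zero_on_sdiff (Finset.subset_biUnion_of_mem s hW) ?_ ?_
          · intro θ hθ
            have h2 : θ ∉ s W := (Finset.mem_sdiff.1 hθ).2
            rw [hm]
            simp only [if_neg h2, Nat.cast_zero, zero_mul, mul_zero]
          · intro θ hθ
            rw [hm]
            simp only [if_pos hθ]
  have hpos : ∀ θ ∈ E.biUnion s, 0 < ∑ W ∈ E, Q.d W * (m W θ : ℝ) := by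
    intro θ hθ
    obtain ⟨W, hW, hθW⟩ := Finset.mem_biUnion.1 hθ
    apply Finset.sum_pos'
    · intro W' _
      exact mul_nonneg (Q.d_pos W').le (Nat.cast_nonneg _)
    · refine ⟨W, hW, mul_pos (Q.d_pos W) ?_⟩
      rw [hm]
      simp only [if_pos hθW]
      exact_mod_cast ((hsn W).1 θ hθW).1
  have hroots : ∀ θ ∈ E.biUnion s, ∃ n : ℕ, 0 < n ∧ θ ^ n = 1 := by
    refine roots_of_unity_of_bounded (E.biUnion s) (fun θ => (∑ W ∈ E, Q.d W * (m W θ : ℝ)) / D)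
      (fun θ hθ => div_pos (hpos θ hθ) hD) ?_
      (fun a j => LinearMap.trace ℂ (S.KK (2 * j)) (S.rotK a (2 * j))) ?_ ?_ ?_
    · intro θ hθ h0
      obtain ⟨W, _, hθW⟩ := Finset.mem_biUnion.1 hθ
      have h1 := ((hsn W).1 θ hθW).2
      rw [h0, norm_zero] at h1
      exact zero_ne_one h1
    · intro j hj
      obtain ⟨M, hM⟩ := trace_of_finite_order (S.rotK 1 (2 * j)) j hj (S.rotK_full j)
      refine ⟨M, fun a => ?_⟩
      rw [S.rotK_pow a (2 * j)]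
      exact hM a
    · intro a ha
      obtain ⟨Θ', η', hη', hΘ', -, hκ'⟩ := exists_measure E Q.d (fun W _ => Q.d_pos W) D hD
        (fun W => ∀ k, Q.EE a W k) (fun W => Q.PP a W)
        (fun W _ μ f hf h0 => Q.PP_eigen ha W μ f hf h0)
        (fun j => LinearMap.trace ℂ (S.KK (2 * j)) (S.rotK a (2 * j)))
        (fun j => by
          have h1 := Q.trace_formula2 a j
          rw [← hE, ← hDdef] at h1
          exact h1) ⊤ (fun _ _ => IntermediateField.mem_top) IntermediateField.mem_top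
      refine ⟨∑ θ ∈ Θ', η' θ, fun j _ => ?_⟩
      rw [hκ' j]
      refine (norm_sum_le _ _).trans (Finset.sum_le_sum fun θ hθ => ?_)
      rw [norm_mul, norm_pow, hΘ' θ hθ, one_pow, mul_one, Complex.norm_real,
        Real.norm_of_nonneg (hη' θ hθ).le]
    · intro j _
      have hDC : (D : ℂ) ≠ 0 := by exact_mod_cast hD.ne'
      have h1 := hsum j
      apply mul_left_cancel₀ hDC
      rw [← h1, Finset.mul_sum]
      refine Finset.sum_congr rfl fun θ _ => ?_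
      push_cast
      field_simp
  refine ⟨E.biUnion s, m, ?_, ?_⟩
  · intro θ hθ
    obtain ⟨k, hk, hθk⟩ := hroots θ hθ
    refine IsIntegral.of_pow hk ?_
    rw [hθk]
    exact isIntegral_one
  · intro j
    rw [← hE, ← hDdef]
    exact hsum j

end Pool.Agent.STP
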