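import Pool.Agent.STP.Defs
import Pool.Agent.STP.Meas

/-!
STP: the global dimension in terms of a system of simple objects.
-/

namespace Pool.Agent.STP

open Pool.Agent.ST5

variable {T : Type*} [Ring T] [StarRing T] [Algebra ℂ T] [StarModule ℂ T]
  {S : SubfactorPlanarAlgebra T}

open SubfactorPlanarAlgebra

theorem nestedCups_eq (n : ℕ) : S.nestedCups n = S.R n := by
  induction n with
  | zero => rfl
  | succ n ih =>
    rw [R_succ, ← ih, ← S.iterate_rho]
    rfl

theorem simpleEven {n : ℕ} {p : T} (h : S.IsSimpleEven n p) : S.IsSimple (2 * n) p :=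
  { mem := h.mem, star_eq := h.star_eq, idem := h.idem, z_mul := h.z_mul, ne_zero := h.ne_zero,
    scalar := h.minimal }

theorem simpleEven' {n : ℕ} {p : T} (h : S.IsSimple (2 * n) p) : S.IsSimpleEven n p :=
  { mem := h.mem, star_eq := h.star_eq, idem := h.idem, z_mul := h.z_mul, ne_zero := h.ne_zero,
    minimal := h.scalar }

theorem globalDimension_eq (Q : S.SimpleSystem) {D : ℝ} (hD : S.IsGlobalDimension D) :
    D = ∑ k ∈ Finset.univ.filter (fun k => Q.a k % 2 = 0), (Q.d k) ^ 2 := by
  classical
  obtain ⟨J, _, a, p, d, hs, hni, hall, hd, rfl⟩ := hD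
  have hex : ∀ j, ∃ i, ∃ v ∈ S.Hom (Q.a i) (Q.p i) (2 * a j) (p j),
      star v * v = Q.p i ∧ v * star v = p j := fun j => Q.exists_iso (simpleEven (hs j))
  choose f v hv hv1 hv2 using hex
  have hpar : ∀ j, Q.a (f j) % 2 = 0 := by
    intro j
    by_contra hne
    have h1 : v j = 0 := by
      apply S.odd_zero _ _ _ _ (hv j).1
      rw [Nat.odd_iff]
      omega
    have h2 := hv1 j
    rw [h1, mul_zero] at h2
    exact (Q.simple (f j)).ne_zero h2.symm
  have hdim : ∀ j, d j = Q.d (f j) := by
    intro j
    have h1 : S.Tr (2 * a j) (p j) = (d j : ℂ) := by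
      unfold Tr
      apply zc_eq
      rw [← nestedCups_eq, hd j, mul_smul_comm, S.z_mul]
    have h2 : S.Tr (2 * a j) (p j) = (Q.d (f j) : ℂ) := by
      rw [← hv2 j, Tr_comm (hv j).1 (star_mem' (hv j).1), hv1 j, Q.Tr_p]
    rw [h1] at h2
    exact_mod_cast h2
  refine Finset.sum_nbij f ?_ ?_ ?_ ?_
  · intro j _
    rw [Finset.mem_filter]
    exact ⟨Finset.mem_univ _, hpar j⟩
  · intro i _ j _ hij
    by_contra hne
    apply hni i j hne
    refine ⟨v j * star (v i), ?_, ?_, ?_⟩
    · have h1 := (hv j).1
      rw [← hij] at h1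
      exact S.mul_mem _ _ _ _ _ h1 (star_mem' (hv i).1)
    · rw [star_mul, star_star]
      calc v i * star (v j) * (v j * star (v i)) = v i * (star (v j) * v j) * star (v i) := by
            simp only [mul_assoc]
        _ = v i * Q.p (f i) * star (v i) := by rw [hv1 j, ← hij]
        _ = v i * star (v i) := by rw [(hv i).2.2]
        _ = p i := hv2 i
    · rw [star_mul, star_star]
      calc v j * star (v i) * (v i * star (v j)) = v j * (star (v i) * v i) * star (v j) := by
            simp only [mul_assoc]
        _ = v j * Q.p (f j) * star (v j) := by rw [hv1 i, hij]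
        _ = v j * star (v j) := by rw [(hv j).2.2]
        _ = p j := hv2 j
  · intro i hi
    rw [Finset.coe_filter] at hi
    have hi2 : Q.a i % 2 = 0 := hi.2
    have hi3 : Q.a i = 2 * (Q.a i / 2) := by omega
    have h1 : S.IsSimple (2 * (Q.a i / 2)) (Q.p i) := by
      rw [← hi3]
      exact Q.simple i
    obtain ⟨j, w, hw, hw1, hw2⟩ := hall _ _ (simpleEven' h1)
    rw [← hi3] at hw
    refine ⟨j, Finset.mem_coe.2 (Finset.mem_univ j), ?_⟩
    by_contra hne
    have hwp : w * p j = w := by
      have hu : w - w * p j ∈ S.H (2 * a j) (Q.a i) :=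
        Submodule.sub_mem _ hw (S.mul_mem _ _ _ _ _ hw (hs j).mem)
      have hu0 : star (w - w * p j) * (w - w * p j) = 0 := by
        have h3 : star (w - w * p j) = star w - p j * star w := by
          rw [star_sub, star_mul, (hs j).star_eq]
        calc star (w - w * p j) * (w - w * p j)
            = (star w * w) - (star w * w) * p j - p j * (star w * w) +
                p j * (star w * w) * p j := by
              rw [h3]
              noncomm_ring
          _ = 0 := by
              rw [hw1, (hs j).idem, (hs j).idem]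
              abel
      exact (sub_eq_zero.1 (faithful hu hu0)).symm
    have hpw : Q.p i * w = w := by
      rw [← hw2, mul_assoc, hw1, hwp]
    have h2 : w * v j ∈ S.Hom (Q.a (f j)) (Q.p (f j)) (Q.a i) (Q.p i) := by
      refine ⟨S.mul_mem _ _ _ _ _ hw (hv j).1, ?_, ?_⟩
      · rw [← mul_assoc, hpw]
      · rw [mul_assoc, (hv j).2.2]
    have h3 := Q.ortho _ _ hne _ h2
    have h4 : star (w * v j) * (w * v j) = Q.p (f j) := by
      rw [star_mul]
      calc star (v j) * star w * (w * v j) = star (v j) * ((star w * w) * v j) := by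
            simp only [mul_assoc]
        _ = star (v j) * v j := by rw [hw1, (hv j).2.1]
        _ = Q.p (f j) := hv1 j
    rw [h3, mul_zero] at h4
    exact (Q.simple (f j)).ne_zero h4.symm
  · intro j _
    rw [hdim j]

end Pool.Agent.STP
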