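import Pool.Agent.STP.Arith
import Pool.Agent.STP.Exist

/-!
STP: the supertransitivity is less than the norm of every prime ideal that does not divide the
global dimension.
-/

namespace Pool.Agent.STP

open Pool.Agent.ST5

variable {T : Type*} [Ring T] [StarRing T] [Algebra ℂ T] [StarModule ℂ T]

open SubfactorPlanarAlgebra

theorem norm_bound (S : SubfactorPlanarAlgebra T) (hfd : S.FiniteDepth) (hδ : 2 < S.δ) (N : ℕ)
    (hN : S.Supertransitive N) :
    ∃ D : integralClosure ℤ (IntermediateField.adjoin ℚ {S.δ ^ 2}),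
      (∀ x : ℝ, S.IsGlobalDimension x ↔ x = ((D : IntermediateField.adjoin ℚ {S.δ ^ 2}) : ℝ)) ∧
      ∀ M : Ideal (integralClosure ℤ (IntermediateField.adjoin ℚ {S.δ ^ 2})), M.IsMaximal →
        D ∉ M →
          N < Nat.card (integralClosure ℤ (IntermediateField.adjoin ℚ {S.δ ^ 2}) ⧸ M) := by
  classical
  obtain ⟨Q⟩ := exists_system hfd
  obtain ⟨D, hD'⟩ : ∃ D, D = ∑ k ∈ Finset.univ.filter (fun k => Q.a k % 2 = 0), (Q.d k) ^ 2 :=
    ⟨_, rfl⟩
  have hglob : ∀ x : ℝ, S.IsGlobalDimension x ↔ x = D := by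
    intro x
    rw [globalDimension_iff Q, hD']
  obtain ⟨E, hE⟩ : ∃ E, E = Finset.univ.filter (fun W => Q.a W % 2 = 0) := ⟨_, rfl⟩
  have hmE : ∀ i, i ∈ E ↔ Q.a i % 2 = 0 := by
    intro i
    rw [hE, Finset.mem_filter]
    exact ⟨fun h => h.2, fun h => ⟨Finset.mem_univ i, h⟩⟩
  rw [← hE] at hD'
  have hint : IsIntegral ℤ (S.δ ^ 2) := delta_sq_integral Q.G Q.o Q.d Q.d_o S.δ Q.pf
  have hintQ : IsIntegral ℚ (S.δ ^ 2) := hint.tower_top
  obtain ⟨K, hK⟩ : ∃ K, K = IntermediateField.adjoin ℚ {S.δ ^ 2} := ⟨_, rfl⟩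
  have hKfd : FiniteDimensional ℚ K := by
    rw [hK]
    exact IntermediateField.adjoin.finiteDimensional hintQ
  rw [← hK]
  have hdK : ∀ W ∈ E, Q.d W ∈ K := by
    intro W hW
    exact pf_field Q.a Q.G Q.G_symm Q.o Q.d Q.d_pos Q.d_o S.δ Q.pf Q.connected K.toSubfield
      (by rw [hK]; exact IntermediateField.subset_adjoin ℚ _ (Set.mem_singleton _)) W
      ((hmE W).1 hW)
  have hex : ∀ W : Q.J, ∃ x : integralClosure ℤ K, W ∈ E → ((x : K) : ℝ) = Q.d W := by
    intro W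
    by_cases hW : W ∈ E
    · have h1 : IsIntegral ℤ (⟨Q.d W, hdK W hW⟩ : K) := by
        have h2 := d_integral Q W ((hmE W).1 hW)
        exact (isIntegral_algHom_iff (algebraMap K ℝ).toIntAlgHom
          (algebraMap K ℝ).injective).1 h2
      exact ⟨⟨⟨Q.d W, hdK W hW⟩, h1⟩, fun _ => rfl⟩
    · exact ⟨0, fun h => absurd h hW⟩
  choose x hx using hex
  have hDx : (((∑ W ∈ E, x W ^ 2 : integralClosure ℤ K) : K) : ℝ) = D := by
    rw [hD']
    push_cast
    exact Finset.sum_congr rfl fun W hW => by rw [hx W hW]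
  refine ⟨∑ W ∈ E, x W ^ 2, fun x => by rw [hglob, hDx], ?_⟩
  intro M hM hDM
  obtain ⟨Θ, n, hΘ, hn⟩ := exists_mult Q
  rw [← hE] at hn
  refine arith K M hM Θ hΘ (fun θ => ∑ W ∈ E, x W * (n W θ : integralClosure ℤ K)) _ hDM N ?_ ?_
  · intro h1
    rw [hDx]
    have h2 := hn 1
    rw [Q.trace_rot_one hN hδ h1, mul_one, ← hD'] at h2
    rw [← h2]
    refine Finset.sum_congr rfl fun θ _ => ?_
    rw [pow_one]
    congr 1
    push_cast
    exact Finset.sum_congr rfl fun W hW => by rw [hx W hW]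
  · intro j hj hjN
    rw [hDx]
    have h2 := hn j
    rw [Q.trace_rot_two hN hδ hj hjN, ← hD', mul_comm] at h2
    rw [← h2]
    refine Finset.sum_congr rfl fun θ _ => ?_
    congr 1
    push_cast
    exact Finset.sum_congr rfl fun W hW => by rw [hx W hW]

/-- The two descriptions of the ring of integers of `ℚ(x)`. -/
noncomputable def integersEquiv (x : ℝ) :
    integersOf x ≃+* integralClosure ℤ (IntermediateField.adjoin ℚ {x}) where
  toFun y := ⟨⟨y.1, y.2.2⟩, by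
    have h1 : IsIntegral ℤ (y.1 : ℝ) := y.2.1
    exact (isIntegral_algHom_iff (algebraMap (IntermediateField.adjoin ℚ {x}) ℝ).toIntAlgHom
      (algebraMap (IntermediateField.adjoin ℚ {x}) ℝ).injective).1 h1⟩
  invFun z := ⟨((z : IntermediateField.adjoin ℚ {x}) : ℝ), by
    refine ⟨?_, (z : IntermediateField.adjoin ℚ {x}).2⟩
    have h1 : IsIntegral ℤ (z : IntermediateField.adjoin ℚ {x}) := z.2
    exact h1.map (algebraMap (IntermediateField.adjoin ℚ {x}) ℝ).toIntAlgHom⟩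
  left_inv _ := rfl
  right_inv _ := rfl
  map_mul' _ _ := rfl
  map_add' _ _ := rfl

theorem norm_bound_ring (S : SubfactorPlanarAlgebra T) (hfd : S.FiniteDepth) (hδ : 2 < S.δ)
    (N : ℕ) (hN : S.Supertransitive N) (R : Subring ℝ) (hR : R = integersOf (S.δ ^ 2)) :
    ∃ D : R, (∀ x : ℝ, S.IsGlobalDimension x ↔ x = D) ∧
      ∀ M : Ideal R, M.IsMaximal → D ∉ M → N < Nat.card (R ⧸ M) := by
  subst hR
  obtain ⟨D, h1, h2⟩ := norm_bound S hfd hδ N hN
  refine ⟨(integersEquiv (S.δ ^ 2)).symm D, h1, fun M hM hDM => ?_⟩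
  have h3 : (M.map (integersEquiv (S.δ ^ 2))).IsMaximal :=
    Ideal.map_isMaximal_of_equiv (integersEquiv (S.δ ^ 2))
  have h4 : D ∉ M.map (integersEquiv (S.δ ^ 2)) := by
    intro h
    apply hDM
    rw [Ideal.mem_map_of_equiv] at h
    obtain ⟨y, hy, hyD⟩ := h
    rw [← hyD, RingEquiv.symm_apply_apply]
    exact hy
  refine lt_of_lt_of_eq (h2 _ h3 h4) (Nat.card_congr ?_)
  exact (Ideal.quotientEquiv M (M.map (integersEquiv (S.δ ^ 2))) (integersEquiv (S.δ ^ 2))
    rfl).symm.toEquiv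

end Pool.Agent.STP
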